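import Pool.Agent.Results.MP_a762d4_al.NonelementaryBands

/-! Semilattices of short arcs and identical inclusions attached to rational numbers. -/

set_option autoImplicit false

namespace Pool.Agent.Y825.IB

open Pool.Agent.Results.MP_a762d4_al.NonelementaryBands

universe u

/-- The displacements within `A` are at most `m`. -/
def Short {r : ℕ} (m : ℕ) (A : Set (ZMod (2 * r + 1))) : Prop :=
  ∀ p ∈ A, ∀ q ∈ A, disp p q ≤ m

/-- The semilattice of the arcs with at most `m + 1` points of `ZMod (2 r + 1)`. -/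
def SArc (r m : ℕ) : Type := {A : Arc r // Short m A.1}

instance (r m : ℕ) : CommSemigroup (SArc r m) where
  mul A B := ⟨A.1 * B.1, fun p hp q hq => A.2 p hp.1 q hq.1⟩
  mul_assoc _ _ _ := Subtype.ext (mul_assoc _ _ _)
  mul_comm _ _ := Subtype.ext (mul_comm _ _)

instance (r m : ℕ) : Finite (SArc r m) := by
  unfold SArc Arc
  infer_instance

/-- the inclusion -/
def inclHom (r m : ℕ) : SArc r m →ₙ* Arc r where
  toFun A := A.1
  map_mul' _ _ := rfl

/-- A long cycle of short arcs in which any `k + 1` consecutive ones meet does not wind around the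
circle. -/
lemma winding' {r m N k : ℕ} (hk : 0 < k) (h2 : 2 * k ≤ N) (h3 : N ≤ 3 * k)
    (hlt : m * N < k * (2 * r + 1)) (A : ℕ → Arc r) (hS : ∀ i, Short m (A i).1)
    (p : ℕ → ZMod (2 * r + 1))
    (hA : ∀ i, A (i + N) = A i) (hp : ∀ i, p (i + N) = p i)
    (hmem : ∀ i j, j ≤ k → p i ∈ (A (i + j)).1) :
    ((A 0).1 ∩ (A k).1 ∩ (A (2 * k)).1).Nonempty := by
  set d : ℕ → ℤ := fun i => disp (p i) (p (i + 1)) with hd
  have hsum : ∀ i t, t ≤ k → disp (p i) (p (i + t)) = ∑ j ∈ Finset.range t, d (i + j) := by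
    intro i t
    induction t with
    | zero => intro _; simp [disp_self]
    | succ t ih =>
      intro ht
      rw [Finset.sum_range_succ, ← ih (by omega)]
      have m1 : p i ∈ (A (i + k)).1 := hmem i k le_rfl
      have m2 : p (i + t) ∈ (A (i + k)).1 := by
        have := hmem (i + t) (k - t) (by omega)
        rwa [show i + t + (k - t) = i + k by omega] at this
      have m3 : p (i + (t + 1)) ∈ (A (i + k)).1 := by
        have := hmem (i + (t + 1)) (k - (t + 1)) (by omega)
        rwa [show i + (t + 1) + (k - (t + 1)) = i + k by omega] at this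
      rw [(A (i + k)).2.1 _ m1 _ m2 _ m3]
      rfl
  have hdper : ∀ i, d (i + N) = d i := by
    intro i
    simp only [hd]
    rw [hp i, show i + N + 1 = (i + 1) + N by ring, hp (i + 1)]
  set D : ℤ := ∑ i ∈ Finset.range N, d i with hD
  have hshift : ∀ j, ∑ i ∈ Finset.range N, d (i + j) = D := by
    intro j
    induction j with
    | zero => simp [hD]
    | succ j ih =>
      have e1 := Finset.sum_range_succ (fun i => d (i + j)) N
      have e2 := Finset.sum_range_succ' (fun i => d (i + j)) N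
      have e3 : d (N + j) = d (0 + j) := by
        rw [show N + j = j + N by ring, hdper j, zero_add]
      have e4 : ∑ i ∈ Finset.range N, d (i + (j + 1)) =
          ∑ i ∈ Finset.range N, d (i + 1 + j) := by
        apply Finset.sum_congr rfl
        intro i _
        rw [show i + (j + 1) = i + 1 + j by ring]
      rw [e4]
      linarith
  have hsD : (k : ℤ) * D = ∑ i ∈ Finset.range N, disp (p i) (p (i + k)) := by
    calc (k : ℤ) * D = ∑ j ∈ Finset.range k, D := by simp
      _ = ∑ j ∈ Finset.range k, ∑ i ∈ Finset.range N, d (i + j) :=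
          Finset.sum_congr rfl (fun j _ => (hshift j).symm)
      _ = ∑ i ∈ Finset.range N, ∑ j ∈ Finset.range k, d (i + j) := Finset.sum_comm
      _ = ∑ i ∈ Finset.range N, disp (p i) (p (i + k)) :=
          Finset.sum_congr rfl (fun i _ => (hsum i k le_rfl).symm)
  have hbd : ∀ i, disp (p i) (p (i + k)) ≤ m ∧ -(m : ℤ) ≤ disp (p i) (p (i + k)) := by
    intro i
    have m1 : p i ∈ (A (i + k)).1 := hmem i k le_rfl
    have m2 : p (i + k) ∈ (A (i + k)).1 := by simpa using hmem (i + k) 0 (Nat.zero_le _)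
    have s1 := hS (i + k) _ m1 _ m2
    have s2 := hS (i + k) _ m2 _ m1
    have s3 := disp_swap (p i) (p (i + k))
    constructor
    · exact s1
    · omega
  have hup : (k : ℤ) * D ≤ N * m := by
    rw [hsD]
    calc ∑ i ∈ Finset.range N, disp (p i) (p (i + k))
        ≤ ∑ i ∈ Finset.range N, (m : ℤ) := Finset.sum_le_sum (fun i _ => (hbd i).1)
      _ = N * m := by simp
  have hlo : -(N * m : ℤ) ≤ (k : ℤ) * D := by
    rw [hsD]
    calc -(N * m : ℤ) = ∑ i ∈ Finset.range N, (-(m : ℤ)) := by simp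
      _ ≤ ∑ i ∈ Finset.range N, disp (p i) (p (i + k)) :=
          Finset.sum_le_sum (fun i _ => (hbd i).2)
  have hcast : ((D : ℤ) : ZMod (2 * r + 1)) = 0 := by
    rw [hD]
    push_cast
    have : ∀ i, ((d i : ℤ) : ZMod (2 * r + 1)) = p (i + 1) - p i := fun i => disp_cast _ _
    simp only [this]
    rw [Finset.sum_range_sub]
    have := hp 0
    rw [zero_add] at this
    rw [this, sub_self]
  have hdvd : ((2 * r + 1 : ℕ) : ℤ) ∣ D := (ZMod.intCast_zmod_eq_zero_iff_dvd D (2 * r + 1)).1 hcast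
  have hD0 : D = 0 := by
    obtain ⟨e, he⟩ := hdvd
    have hlt' : (m : ℤ) * N < k * ((2 * r + 1 : ℕ) : ℤ) := by exact_mod_cast hlt
    have hn0 : (0 : ℤ) < ((2 * r + 1 : ℕ) : ℤ) := by positivity
    have hk0 : (0 : ℤ) < (k : ℤ) := by exact_mod_cast hk
    have hkn : (0 : ℤ) < k * ((2 * r + 1 : ℕ) : ℤ) := mul_pos hk0 hn0
    have h1 : e < 1 := by
      by_contra hc
      push Not at hc
      have h5 : (k : ℤ) * D = (k * ((2 * r + 1 : ℕ) : ℤ)) * e := by rw [he]; ring
      have h6 : (k * ((2 * r + 1 : ℕ) : ℤ)) * 1 ≤ (k * ((2 * r + 1 : ℕ) : ℤ)) * e :=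
        mul_le_mul_of_nonneg_left hc hkn.le
      linarith [mul_comm (m : ℤ) N]
    have h2 : -1 < e := by
      by_contra hc
      push Not at hc
      have h5 : (k : ℤ) * D = (k * ((2 * r + 1 : ℕ) : ℤ)) * e := by rw [he]; ring
      have h6 : (k * ((2 * r + 1 : ℕ) : ℤ)) * e ≤ (k * ((2 * r + 1 : ℕ) : ℤ)) * (-1) :=
        mul_le_mul_of_nonneg_left hc hkn.le
      linarith [mul_comm (m : ℤ) N]
    have : e = 0 := by omega
    rw [he, this, mul_zero]
  have hA0 : A N = A 0 := by simpa using hA 0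
  have hp0 : p N = p 0 := by simpa using hp 0
  apply middle (A 0) (A k) (A (2 * k)) (p 0) (p k) (p (2 * k))
  · simpa using hmem 0 0 (Nat.zero_le _)
  · have := hmem (2 * k) (N - 2 * k) (by omega)
    rwa [show 2 * k + (N - 2 * k) = N by omega, hA0] at this
  · simpa using hmem 0 k le_rfl
  · simpa using hmem k 0 (Nat.zero_le _)
  · have := hmem k k le_rfl
    rwa [show k + k = 2 * k by ring] at this
  · simpa using hmem (2 * k) 0 (Nat.zero_le _)
  · have f1 := hsum 0 k le_rfl
    have f2 := hsum k k le_rfl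
    have f3 := hsum (2 * k) (N - 2 * k) (by omega)
    rw [show 2 * k + (N - 2 * k) = N by omega, hp0] at f3
    rw [show k + k = 2 * k by ring] at f2
    rw [zero_add] at f1
    have f4 : D = (∑ j ∈ Finset.range k, d j + ∑ j ∈ Finset.range k, d (k + j)) +
        ∑ j ∈ Finset.range (N - 2 * k), d (2 * k + j) := by
      rw [hD, show N = (k + k) + (N - 2 * k) by omega, Finset.sum_range_add, Finset.sum_range_add]
      congr 1
      rw [show k + k + (N - 2 * k) - 2 * k = N - 2 * k by omega, show k + k = 2 * k by ring]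
    simp only [zero_add] at f1
    rw [f1, f2, f3]
    linarith

/-! ### The inclusions -/

/-- The letters of the cycle with the label `(N, k)`, at position `i < N`; the positions `0`, `k`,
`2 k` carry the three letters shared by all cycles. -/
def lett (N k i : ℕ) : ℕ :=
  if i = 0 then 0 else if i = k then 1 else if i = 2 * k then 2 else
    Nat.pair (Nat.pair N k) i + 3

/-- The product of `k + 1` cyclically consecutive letters of the `N`-cycle, starting at `i`. -/
def wind (N k i : ℕ) : FreeSemigroup ℕ :=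
  ⟨lett N k (i % N), (List.range k).map fun j => lett N k ((i + (j + 1)) % N)⟩

lemma mem_wind {N k i a : ℕ} :
    a ∈ (wind N k i).head :: (wind N k i).tail ↔ ∃ j, j ≤ k ∧ a = lett N k ((i + j) % N) := by
  simp only [wind, List.mem_cons, List.mem_map, List.mem_range]
  constructor
  · rintro (h | ⟨j, hj, h⟩)
    · exact ⟨0, Nat.zero_le _, by simpa using h⟩
    · exact ⟨j + 1, hj, h.symm⟩
  · rintro ⟨j, hj, h⟩
    rcases Nat.eq_zero_or_pos j with h0 | h0
    · left; simpa [h0] using h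
    · right
      exact ⟨j - 1, by omega, by rw [h, show j - 1 + 1 = j by omega]⟩

/-- `k / N` is between `1 / 3` and `1 / 2`. -/
def Valid (N k : ℕ) : Prop := 0 < k ∧ 2 * k < N ∧ N ≤ 3 * k

/-- The inclusion `x₁ x₂ x₃ ∈ {x₁ x₂, x₂ x₃, x₁ x₃} ∪ {windows of length k + 1 of an N-cycle}`, where
the windows for all valid `(N, k)` with `k / N < θ` are taken. -/
def law (θ : ℝ) : IdInclusion where
  word := theWord
  set := {w | w = FreeSemigroup.of 0 * FreeSemigroup.of 1 ∨
    w = FreeSemigroup.of 1 * FreeSemigroup.of 2 ∨ w = FreeSemigroup.of 0 * FreeSemigroup.of 2 ∨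
    ∃ N k i, Valid N k ∧ (k : ℝ) < θ * N ∧ w = wind N k i}
  nonempty := ⟨_, Or.inl rfl⟩

/-- If `m / (2 r + 1) < k / N < θ` then the law holds in the semilattice of arcs. -/
lemma sarc_satisfies {θ : ℝ} {r m N k : ℕ} (hv : Valid N k) (hθ : (k : ℝ) < θ * N)
    (hlt : m * N < k * (2 * r + 1))
    (φ₀ : FreeSemigroup ℕ →ₙ* SArc r m) :
    ∃ v ∈ (law θ).set, φ₀ theWord = φ₀ v := by
  have hv0 := hv
  obtain ⟨hk, h2, h3⟩ := hv
  set φ : FreeSemigroup ℕ →ₙ* Arc r := (inclHom r m).comp φ₀ with hφ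
  have hφS : ∀ w, Short m (φ w).1 := fun w => (φ₀ w).2
  suffices h : ∃ v ∈ (law θ).set, φ theWord = φ v by
    obtain ⟨v, hv, e⟩ := h
    exact ⟨v, hv, Subtype.ext e⟩
  by_cases hne : (φ theWord).1.Nonempty
  · have hb := breadth (φ (FreeSemigroup.of 0)) (φ (FreeSemigroup.of 1)) (φ (FreeSemigroup.of 2))
      (by simpa [theWord] using hne)
    rcases hb with hb | hb | hb
    · exact ⟨_, Or.inl rfl, by simpa [theWord] using hb⟩
    · exact ⟨_, Or.inr (Or.inl rfl), by simpa [theWord] using hb⟩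
    · exact ⟨_, Or.inr (Or.inr (Or.inl rfl)), by simpa [theWord] using hb⟩
  · by_contra hcon
    push Not at hcon
    have hwin : ∀ i, ∃ q, q ∈ (φ (wind N k i)).1 := by
      intro i
      by_contra hc
      apply hcon (wind N k i) (Or.inr (Or.inr (Or.inr ⟨N, k, i, hv0, hθ, rfl⟩)))
      apply Subtype.ext
      rw [Set.not_nonempty_iff_eq_empty.1 hne]
      symm
      apply Set.not_nonempty_iff_eq_empty.1
      rintro ⟨q, hq⟩
      exact hc ⟨q, hq⟩
    choose p hp using hwin
    have hw := winding' (r := r) (m := m) (N := N) (k := k) hk h2.le h3 hlt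
      (fun i => φ (FreeSemigroup.of (lett N k (i % N))))
      (fun i => hφS _)
      (fun i => p (i % N))
      (fun i => by simp only [Nat.add_mod_right])
      (fun i => by simp only [Nat.add_mod_right])
      (fun i j hj => by
        have := (mem_eval φ _ _).1 (hp (i % N))
          (lett N k ((i % N + j) % N))
          (mem_wind.2 ⟨j, hj, rfl⟩)
        simpa only [Nat.mod_add_mod] using this)
    apply hne
    obtain ⟨q, ⟨h0, h1⟩, h2'⟩ := hw
    refine ⟨q, ?_⟩
    have e0 : lett N k (0 % N) = 0 := by simp [lett]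
    have e1 : lett N k (k % N) = 1 := by
      rw [Nat.mod_eq_of_lt (by omega)]
      unfold lett
      rw [if_neg (by omega), if_pos rfl]
    have e2 : lett N k ((2 * k) % N) = 2 := by
      rw [Nat.mod_eq_of_lt (by omega)]
      unfold lett
      rw [if_neg (by omega), if_neg (by omega), if_pos rfl]
    simp only [e0] at h0
    simp only [e1] at h1
    simp only [e2] at h2'
    rw [theWord, map_mul, map_mul, arc_mul_val, arc_mul_val]
    exact ⟨⟨h0, h1⟩, h2'⟩

/-! ### The violating assignments -/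

/-- The arc of `m + 1` points ending at `e`. -/
def shortEnd (r m e : ℕ) (hm : m ≤ r) : SArc r m := by
  refine ⟨⟨{q | ∃ t : ℕ, t ≤ m ∧ q = (e : ZMod (2 * r + 1)) - t}, ?_, ?_⟩, ?_⟩
  · rintro p ⟨a, ha, rfl⟩ q ⟨b, hb, rfl⟩ t ⟨c, hc, rfl⟩
    exact (arcEnd r e).2.1 _ ⟨a, by omega, rfl⟩ _ ⟨b, by omega, rfl⟩ _ ⟨c, by omega, rfl⟩
  · rintro p ⟨a, ha, rfl⟩ t ⟨c, hc, rfl⟩ q h
    have h3 : disp ((e : ZMod (2 * r + 1)) - (a : ZMod (2 * r + 1)))
        ((e : ZMod (2 * r + 1)) - (c : ZMod (2 * r + 1))) = (a : ℤ) - c := by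
      apply disp_eq
      · omega
      · omega
      · push_cast; ring
    rw [h3] at h
    have hq := disp_cast ((e : ZMod (2 * r + 1)) - (a : ZMod (2 * r + 1))) q
    set x := disp ((e : ZMod (2 * r + 1)) - (a : ZMod (2 * r + 1))) q with hx
    have hnn : 0 ≤ (a : ℤ) - x := by omega
    refine ⟨((a : ℤ) - x).toNat, by omega, ?_⟩
    have : ((((a : ℤ) - x).toNat : ℕ) : ZMod (2 * r + 1)) =
        ((((a : ℤ) - x : ℤ)) : ZMod (2 * r + 1)) := by
      rw [← Int.toNat_of_nonneg hnn]
      simp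
    rw [this]
    push_cast
    rw [hq]
    ring
  · rintro p ⟨a, ha, rfl⟩ q ⟨b, hb, rfl⟩
    have h2 : disp ((e : ZMod (2 * r + 1)) - (a : ZMod (2 * r + 1)))
        ((e : ZMod (2 * r + 1)) - (b : ZMod (2 * r + 1))) = (a : ℤ) - b := by
      apply disp_eq
      · omega
      · omega
      · push_cast; ring
    rw [h2]
    omega

lemma mem_shortEnd {r m e : ℕ} (hm : m ≤ r) {q : ZMod (2 * r + 1)} :
    q ∈ (shortEnd r m e hm).1.1 ↔ ∃ t : ℕ, t ≤ m ∧ q = (e : ZMod (2 * r + 1)) - t := Iff.rfl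

/-- The end points. -/
def pt (r N i : ℕ) : ℕ := i * (2 * r + 1) / N

lemma pt_add {r N : ℕ} (hN : 0 < N) (i : ℕ) : pt r N (i + N) = pt r N i + (2 * r + 1) := by
  unfold pt
  rw [add_mul, Nat.add_mul_div_left _ _ hN]

lemma pt_le {r m N k : ℕ} (hN : 0 < N) (hle : k * (2 * r + 1) ≤ m * N) {i j : ℕ} (hj : j ≤ k) :
    pt r N (i + j) ≤ pt r N i + m := by
  unfold pt
  have h1 : (i + j) * (2 * r + 1) ≤ i * (2 * r + 1) + N * m := by
    have := Nat.mul_le_mul_right (2 * r + 1) hj
    nlinarith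
  calc (i + j) * (2 * r + 1) / N ≤ (i * (2 * r + 1) + N * m) / N := Nat.div_le_div_right h1
    _ = i * (2 * r + 1) / N + m := Nat.add_mul_div_left _ _ hN

lemma pt_mono {r N i j : ℕ} (h : i ≤ j) : pt r N i ≤ pt r N j :=
  Nat.div_le_div_right (Nat.mul_le_mul_right _ h)

/-- The end point of the arc at position `i < N` of the cycle with the label `(N, k)`. -/
def ept (r m N k i : ℕ) : ℕ := max (pt r N i) (m * (i / k))

lemma ept_zero (r m N k : ℕ) : ept r m N k 0 = 0 := by simp [ept, pt]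

lemma ept_k {r m N k : ℕ} (hv : Valid N k) (hle : k * (2 * r + 1) ≤ m * N) :
    ept r m N k k = m := by
  obtain ⟨hk, h2k, h3k⟩ := hv
  have h1 := pt_le (r := r) (i := 0) (by omega : 0 < N) hle (le_refl k)
  have hp0 : pt r N 0 = 0 := by simp [pt]
  rw [hp0, zero_add, zero_add] at h1
  unfold ept
  rw [Nat.div_self hk, mul_one]
  exact max_eq_right h1

lemma ept_2k {r m N k : ℕ} (hv : Valid N k) (hle : k * (2 * r + 1) ≤ m * N) :
    ept r m N k (2 * k) = 2 * m := by
  obtain ⟨hk, h2k, h3k⟩ := hv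
  have h1 := pt_le (r := r) (i := 0) (by omega : 0 < N) hle (le_refl k)
  have h2 := pt_le (r := r) (i := k) (by omega : 0 < N) hle (le_refl k)
  have hp0 : pt r N 0 = 0 := by simp [pt]
  rw [hp0, zero_add, zero_add] at h1
  rw [show k + k = 2 * k by ring] at h2
  unfold ept
  rw [Nat.mul_div_cancel _ hk]
  have : pt r N (2 * k) ≤ m * 2 := by omega
  rw [max_eq_right this]
  ring

/-- inside the cycle -/
lemma ept_step {r m N k c j : ℕ} (hv : Valid N k) (hle : k * (2 * r + 1) ≤ m * N) (hj : j ≤ k) :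
    ept r m N k c ≤ ept r m N k (c + j) ∧ ept r m N k (c + j) ≤ ept r m N k c + m := by
  obtain ⟨hk, h2k, h3k⟩ := hv
  have hN : 0 < N := by omega
  have h1 : pt r N (c + j) ≤ pt r N c + m := pt_le hN hle hj
  have h2 : pt r N c ≤ pt r N (c + j) := pt_mono (Nat.le_add_right _ _)
  have h3 : c / k ≤ (c + j) / k := Nat.div_le_div_right (Nat.le_add_right _ _)
  have h4 : (c + j) / k ≤ c / k + 1 := by
    calc (c + j) / k ≤ (c + k) / k := Nat.div_le_div_right (by omega)
      _ = c / k + 1 := Nat.add_div_right _ hk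
  have h5 : m * (c / k) ≤ m * ((c + j) / k) := Nat.mul_le_mul_left _ h3
  have h6 : m * ((c + j) / k) ≤ m * (c / k) + m := by
    calc m * ((c + j) / k) ≤ m * (c / k + 1) := Nat.mul_le_mul_left _ h4
      _ = m * (c / k) + m := by ring
  unfold ept
  omega

/-- around the end of the cycle -/
lemma ept_wrap {r m N k c j : ℕ} (hm : m ≤ r) (hv : Valid N k) (hle : k * (2 * r + 1) ≤ m * N)
    (hc : c < N) (hj : j ≤ k) (hcj : N ≤ c + j) :
    ept r m N k c ≤ ept r m N k (c + j - N) + (2 * r + 1) ∧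
      ept r m N k (c + j - N) + (2 * r + 1) ≤ ept r m N k c + m := by
  obtain ⟨hk, h2k, h3k⟩ := hv
  have hN : 0 < N := by omega
  have h1 : pt r N (c + j) ≤ pt r N c + m := pt_le hN hle hj
  have h2 : pt r N (c + j) = pt r N (c + j - N) + (2 * r + 1) := by
    rw [← pt_add hN, show c + j - N + N = c + j by omega]
  have h3 : (c + j - N) / k = 0 := Nat.div_eq_of_lt (by omega)
  have h4 : pt r N c ≤ 2 * r + 1 := by
    have h5 : pt r N c ≤ pt r N N := pt_mono hc.le
    have h6 : pt r N N = pt r N 0 + (2 * r + 1) := by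
      have := pt_add (r := r) hN 0
      rwa [zero_add] at this
    have h7 : pt r N 0 = 0 := by simp [pt]
    omega
  have h8 : c / k ≤ 2 := by
    have : c / k < 3 := (Nat.div_lt_iff_lt_mul hk).mpr (by omega)
    omega
  have h9 : m * (c / k) ≤ m * 2 := Nat.mul_le_mul_left _ h8
  unfold ept
  rw [h3, mul_zero]
  omega

/-- The violating assignment of arcs to the letters. -/
def bad (r m : ℕ) (hm : m ≤ r) (a : ℕ) : SArc r m :=
  if a = 0 then shortEnd r m 0 hm else if a = 1 then shortEnd r m m hm else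
    if a = 2 then shortEnd r m (2 * m) hm else
      shortEnd r m (ept r m (Nat.unpair (Nat.unpair (a - 3)).1).1
        (Nat.unpair (Nat.unpair (a - 3)).1).2 (Nat.unpair (a - 3)).2) hm

lemma bad_lett {r m N k i : ℕ} (hm : m ≤ r) (hv : Valid N k) (hle : k * (2 * r + 1) ≤ m * N) :
    bad r m hm (lett N k i) = shortEnd r m (ept r m N k i) hm := by
  unfold lett
  split_ifs with h0 h1 h2
  · subst h0
    rw [ept_zero]
    rfl
  · subst h1
    rw [ept_k hv hle]
    rfl
  · subst h2
    rw [ept_2k hv hle]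
    rfl
  · unfold bad
    rw [if_neg (by omega), if_neg (by omega), if_neg (by omega),
      show Nat.pair (Nat.pair N k) i + 3 - 3 = Nat.pair (Nat.pair N k) i by omega]
    simp only [Nat.unpair_pair]

lemma bad_wind {r m N k : ℕ} (hm : m ≤ r) (hv : Valid N k)
    (hle : k * (2 * r + 1) ≤ m * N) (i : ℕ) :
    (FreeSemigroup.lift (bad r m hm) (wind N k i)).1.1.Nonempty := by
  have hN : 0 < N := by have := hv.2.1; omega
  have hlt : i % N < N := Nat.mod_lt _ hN
  refine ⟨(ept r m N k (i % N) : ZMod (2 * r + 1)), ?_⟩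
  have hme := mem_eval ((inclHom r m).comp (FreeSemigroup.lift (bad r m hm)))
    (ept r m N k (i % N) : ZMod (2 * r + 1)) (wind N k i)
  refine hme.2 ?_
  intro a ha
  obtain ⟨j, hj, rfl⟩ := mem_wind.1 ha
  show _ ∈ (FreeSemigroup.lift (bad r m hm) (FreeSemigroup.of (lett N k ((i + j) % N)))).1.1
  rw [FreeSemigroup.lift_of, bad_lett hm hv hle, mem_shortEnd, ← Nat.mod_add_mod]
  generalize i % N = c at hlt
  by_cases h3 : c + j < N
  · obtain ⟨h1, h2⟩ := ept_step (c := c) hv hle hj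
    refine ⟨ept r m N k (c + j) - ept r m N k c, by omega, ?_⟩
    rw [Nat.cast_sub h1, Nat.mod_eq_of_lt h3]
    ring
  · obtain ⟨h1, h2⟩ := ept_wrap hm hv hle hlt hj (by omega)
    have e : (c + j) % N = c + j - N := by
      have := hv.2.1
      rw [Nat.mod_eq_sub_mod (by omega), Nat.mod_eq_of_lt (by omega)]
    refine ⟨ept r m N k (c + j - N) + (2 * r + 1) - ept r m N k c, by omega, ?_⟩
    rw [Nat.cast_sub h1, e]
    have h4 := two_r_one r
    push_cast
    linear_combination h4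

lemma bad_word' {r m : ℕ} (hm : m ≤ r) (hm0 : 0 < m) :
    ¬ (FreeSemigroup.lift (bad r m hm) theWord).1.1.Nonempty := by
  rintro ⟨q, hq⟩
  rw [theWord, map_mul, map_mul, FreeSemigroup.lift_of, FreeSemigroup.lift_of,
    FreeSemigroup.lift_of] at hq
  obtain ⟨⟨⟨a, ha, ea⟩, ⟨b, hb, eb⟩⟩, ⟨c, hc, ec⟩⟩ := hq
  have h1 : (((m + a : ℕ)) : ZMod (2 * r + 1)) = ((b : ℕ) : ZMod (2 * r + 1)) := by
    have := ea.symm.trans eb
    push_cast at this ⊢
    linear_combination -this
  have h2 : (((2 * m + a : ℕ)) : ZMod (2 * r + 1)) = ((c : ℕ) : ZMod (2 * r + 1)) := by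
    have := ea.symm.trans ec
    push_cast at this ⊢
    linear_combination -this
  rw [ZMod.natCast_eq_natCast_iff', Nat.mod_eq_of_lt (show m + a < 2 * r + 1 by omega),
    Nat.mod_eq_of_lt (show b < 2 * r + 1 by omega)] at h1
  rw [ZMod.natCast_eq_natCast_iff', Nat.mod_eq_of_lt (show 2 * m + a < 2 * r + 1 by omega),
    Nat.mod_eq_of_lt (show c < 2 * r + 1 by omega)] at h2
  omega

lemma bad_pairs' {r m : ℕ} (hm : m ≤ r) (h3 : 2 * r + 1 ≤ 3 * m) :
    (FreeSemigroup.lift (bad r m hm)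
      (FreeSemigroup.of 0 * FreeSemigroup.of 1)).1.1.Nonempty ∧
    (FreeSemigroup.lift (bad r m hm)
      (FreeSemigroup.of 1 * FreeSemigroup.of 2)).1.1.Nonempty ∧
    (FreeSemigroup.lift (bad r m hm)
      (FreeSemigroup.of 0 * FreeSemigroup.of 2)).1.1.Nonempty := by
  simp only [map_mul, FreeSemigroup.lift_of]
  refine ⟨⟨0, ⟨0, by omega, by simp⟩, ⟨m, le_rfl, by simp⟩⟩,
    ⟨(m : ZMod (2 * r + 1)), ⟨0, by omega, by simp⟩, ⟨m, le_rfl, by push_cast; ring⟩⟩,
    ⟨((2 * m : ℕ) : ZMod (2 * r + 1)), ⟨2 * r + 1 - 2 * m, by omega, ?_⟩, ⟨0, by omega, by simp⟩⟩⟩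
  rw [Nat.cast_sub (by omega)]
  have h4 := two_r_one r
  push_cast
  linear_combination h4

/-- The values of the words of the law at the violating assignment. -/
lemma bad_ne' {r m : ℕ} (hm : m ≤ r) (h3 : 2 * r + 1 ≤ 3 * m) {v : FreeSemigroup ℕ}
    (hv : v = FreeSemigroup.of 0 * FreeSemigroup.of 1 ∨
    v = FreeSemigroup.of 1 * FreeSemigroup.of 2 ∨ v = FreeSemigroup.of 0 * FreeSemigroup.of 2 ∨
    ∃ N k i, Valid N k ∧ k * (2 * r + 1) ≤ m * N ∧ v = wind N k i) :
    FreeSemigroup.lift (bad r m hm) theWord ≠ FreeSemigroup.lift (bad r m hm) v := by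
  intro h
  apply bad_word' (m := m) hm (by omega)
  rw [h]
  rcases hv with rfl | rfl | rfl | ⟨N, k, i, h1, h2, rfl⟩
  · exact (bad_pairs' hm h3).1
  · exact (bad_pairs' hm h3).2.1
  · exact (bad_pairs' hm h3).2.2
  · exact bad_wind hm h1 h2 i

end Pool.Agent.Y825.IB
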