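import Pool.Agent.Y825.IB.Arcs

/-! A chain of nonelementary inclusive varieties of semilattices indexed by real numbers. -/

set_option autoImplicit false

namespace Pool.Agent.Y825.IB

open Pool.Agent.Results.MP_a762d4_al.NonelementaryBands
open FirstOrder

universe u

/-- An arc semilattice placed in an arbitrary universe. -/
abbrev USArc (r m : ℕ) : Type u := ULift.{u} (SArc r m)

lemma usarc_satisfies (r m : ℕ) (i : IdInclusion) :
    Satisfies (USArc.{u} r m) i ↔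
      ∀ φ : FreeSemigroup ℕ →ₙ* SArc r m, ∃ v ∈ i.set, φ i.word = φ v := by
  constructor
  · intro h φ
    obtain ⟨v, hv, e⟩ := h ((MulEquiv.ulift (α := SArc r m)).symm.toMulHom.comp φ)
    exact ⟨v, hv, (MulEquiv.ulift (α := SArc r m)).symm.injective e⟩
  · intro h φ
    obtain ⟨v, hv, e⟩ := h ((MulEquiv.ulift (α := SArc r m)).toMulHom.comp φ)
    exact ⟨v, hv, (MulEquiv.ulift (α := SArc r m)).injective e⟩

/-- The inclusive variety of semilattices attached to the real number `θ`. -/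
def K (θ : ℝ) : SemigroupClass.{u} :=
  fun S _ => ∀ i ∈ ({idemInclusion, commInclusion, law θ} : Set IdInclusion), Satisfies S i

lemma K_isInclusiveVariety (θ : ℝ) : IsInclusiveVariety (K.{u} θ) := ⟨_, fun _ _ => Iff.rfl⟩

lemma comm_of_satisfies (S : Type u) [Semigroup S] (h : Satisfies S commInclusion) (x y : S) :
    x * y = y * x := by
  obtain ⟨v, hv, e⟩ := h (FreeSemigroup.lift fun n => if n = 0 then x else y)
  rw [show v = _ from hv] at e
  simpa [commInclusion] using e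

lemma K_semilattice (θ : ℝ) (S : Type u) [Semigroup S] (h : K θ S) :
    (∀ x : S, x * x = x) ∧ ∀ x y : S, x * y = y * x :=
  ⟨idem_of_satisfies S (h _ (by simp)), comm_of_satisfies S (h _ (by simp))⟩

lemma K_mono {θ θ' : ℝ} (h : θ ≤ θ') (S : Type u) [Semigroup S] (hS : K θ S) : K θ' S := by
  intro i hi
  simp only [Set.mem_insert_iff, Set.mem_singleton_iff] at hi
  rcases hi with rfl | rfl | rfl
  · exact hS _ (by simp)
  · exact hS _ (by simp)
  · intro φ
    obtain ⟨v, hv, e⟩ := hS (law θ) (by simp) φ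
    refine ⟨v, ?_, e⟩
    rcases hv with h1 | h1 | h1 | ⟨N, k, i, h1, h2, h3⟩
    · exact Or.inl h1
    · exact Or.inr (Or.inl h1)
    · exact Or.inr (Or.inr (Or.inl h1))
    · exact Or.inr (Or.inr (Or.inr ⟨N, k, i, h1,
        lt_of_lt_of_le h2 (mul_le_mul_of_nonneg_right h (Nat.cast_nonneg N)), h3⟩))

/-- Between two real numbers of the interval there is a fraction with odd denominator. -/
lemma density {α β : ℝ} (h3 : 1 / 3 ≤ α) (h2 : β ≤ 1 / 2) (h : α < β) :
    ∃ r m : ℕ, 1 ≤ r ∧ α * (2 * r + 1 : ℕ) < m ∧ (m : ℝ) < β * (2 * r + 1 : ℕ) ∧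
      Valid (2 * r + 1) m := by
  obtain ⟨r0, hr0⟩ := exists_nat_gt (1 / (β - α))
  have hpos : 0 < β - α := sub_pos.mpr h
  set r : ℕ := r0 + 1 with hr
  have hn : 1 < (β - α) * (2 * r + 1 : ℕ) := by
    have h4 : 1 < (β - α) * r0 := by
      rw [div_lt_iff₀ hpos] at hr0
      linarith
    have h5 : (r0 : ℝ) ≤ ((2 * r + 1 : ℕ) : ℝ) := by
      exact_mod_cast (by omega : r0 ≤ 2 * r + 1)
    nlinarith
  set m : ℕ := ⌊α * (2 * r + 1 : ℕ)⌋₊ + 1 with hm
  have hα : 0 ≤ α * (2 * r + 1 : ℕ) := by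
    have : 0 ≤ α := by linarith
    positivity
  have hm1 : α * (2 * r + 1 : ℕ) < m := by
    rw [hm]
    push_cast
    have := Nat.lt_floor_add_one (α * (2 * r + 1 : ℕ))
    push_cast at this
    exact this
  have hm2 : (m : ℝ) < β * (2 * r + 1 : ℕ) := by
    have h6 := Nat.floor_le hα
    have h7 : (m : ℝ) = (⌊α * (2 * r + 1 : ℕ)⌋₊ : ℝ) + 1 := by
      rw [hm]
      push_cast
      rfl
    rw [h7]
    linarith
  refine ⟨r, m, by omega, hm1, hm2, by omega, ?_, ?_⟩
  · have hn0 : (0 : ℝ) < ((2 * r + 1 : ℕ) : ℝ) := by positivity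
    have : (2 : ℝ) * m < ((2 * r + 1 : ℕ) : ℝ) := by nlinarith
    exact_mod_cast this
  · have hn0 : (0 : ℝ) < ((2 * r + 1 : ℕ) : ℝ) := by positivity
    have : ((2 * r + 1 : ℕ) : ℝ) < 3 * m := by nlinarith
    exact (by exact_mod_cast this : 2 * r + 1 < 3 * m).le

/-- Short arcs are in the class. -/
lemma sarc_mem {θ : ℝ} (h3 : 1 / 3 < θ) (h2 : θ ≤ 1 / 2) {r m : ℕ}
    (h : (m : ℝ) < θ * (2 * r + 1 : ℕ)) : K.{u} θ (USArc.{u} r m) := by
  have hn0 : (0 : ℝ) < ((2 * r + 1 : ℕ) : ℝ) := by positivity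
  intro i hi
  simp only [Set.mem_insert_iff, Set.mem_singleton_iff] at hi
  rcases hi with rfl | rfl | rfl
  · rw [usarc_satisfies]
    intro φ
    refine ⟨_, rfl, ?_⟩
    rw [map_mul]
    exact (Subtype.ext (arc_mul_self (φ (FreeSemigroup.of 0)).1)).symm
  · rw [usarc_satisfies]
    intro φ
    exact ⟨_, rfl, by simp only [commInclusion, map_mul]; exact mul_comm _ _⟩
  · rw [usarc_satisfies]
    intro φ
    have hα : max (1 / 3) ((m : ℝ) / (2 * r + 1 : ℕ)) < θ := by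
      rw [max_lt_iff]
      exact ⟨h3, by rwa [div_lt_iff₀ hn0]⟩
    obtain ⟨s, k, hs, hk1, hk2, hv⟩ := density (le_max_left _ _) h2 hα
    refine sarc_satisfies hv hk2 ?_ φ
    have hs0 : (0 : ℝ) < ((2 * s + 1 : ℕ) : ℝ) := by positivity
    have h4 : (m : ℝ) / (2 * r + 1 : ℕ) * (2 * s + 1 : ℕ) < k :=
      lt_of_le_of_lt (mul_le_mul_of_nonneg_right (le_max_right _ _) hs0.le) hk1
    have h5 : (m : ℝ) * (2 * s + 1 : ℕ) < k * (2 * r + 1 : ℕ) := by
      rw [div_mul_eq_mul_div, div_lt_iff₀ hn0] at h4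
      exact h4
    exact_mod_cast h5

/-- Long arcs are not in the class. -/
lemma sarc_notMem {θ : ℝ} {r m : ℕ} (hm : m ≤ r) (h3 : 2 * r + 1 ≤ 3 * m)
    (h : θ * (2 * r + 1 : ℕ) ≤ m) : ¬ K.{u} θ (USArc.{u} r m) := by
  intro hK
  have h1 := hK (law θ) (by simp)
  rw [usarc_satisfies] at h1
  obtain ⟨v, hv, e⟩ := h1 (FreeSemigroup.lift (bad r m hm))
  refine bad_ne' hm h3 ?_ e
  rcases hv with h1 | h1 | h1 | ⟨N, k, i, h1, h2, h3'⟩
  · exact Or.inl h1
  · exact Or.inr (Or.inl h1)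
  · exact Or.inr (Or.inr (Or.inl h1))
  · refine Or.inr (Or.inr (Or.inr ⟨N, k, i, h1, ?_, h3'⟩))
    have hn0 : (0 : ℝ) < ((2 * r + 1 : ℕ) : ℝ) := by positivity
    have h4 : (k : ℝ) * (2 * r + 1 : ℕ) ≤ m * N := by
      have h5 : (k : ℝ) * (2 * r + 1 : ℕ) ≤ θ * N * (2 * r + 1 : ℕ) :=
        mul_le_mul_of_nonneg_right h2.le hn0.le
      have h6 : θ * (2 * r + 1 : ℕ) * N ≤ m * N := mul_le_mul_of_nonneg_right h (Nat.cast_nonneg N)
      linarith [mul_right_comm θ ((2 * r + 1 : ℕ) : ℝ) (N : ℝ)]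
    exact_mod_cast h4

/-- None of these classes is elementary. -/
lemma K_nonelementary {θ : ℝ} (h3 : 1 / 3 < θ) (h2 : θ ≤ 1 / 2) : ¬ IsElementary (K.{u} θ) := by
  rintro ⟨T, hT⟩
  -- a sequence of semilattices of arcs with ratio tending to `θ`
  have hseq : ∀ n : ℕ, ∃ r m : ℕ, 1 ≤ r ∧
      (θ - (θ - 1 / 3) / (n + 1)) * (2 * r + 1 : ℕ) < m ∧ (m : ℝ) < θ * (2 * r + 1 : ℕ) ∧
      Valid (2 * r + 1) m := by
    intro n
    have hn : (0 : ℝ) < (n : ℝ) + 1 := by positivity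
    refine density ?_ h2 ?_
    · have h4 : (θ - 1 / 3) / (n + 1) ≤ θ - 1 / 3 := by
        apply div_le_self (by linarith)
        linarith [(Nat.cast_nonneg n : (0 : ℝ) ≤ n)]
      linarith
    · have : 0 < (θ - 1 / 3) / ((n : ℝ) + 1) := div_pos (by linarith) hn
      linarith
  choose r m hr hm1 hm2 hv using hseq
  have hm : ∀ n, m n ≤ r n := fun n => by have := (hv n).2.1; omega
  have hm3 : ∀ n, 2 * r n + 1 ≤ 3 * m n := fun n => (hv n).2.2
  let F : Ultrafilter ℕ := Filter.hyperfilter ℕ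
  let M : ℕ → Type u := fun n => USArc.{u} (r n) (m n)
  haveI : ∀ n, Nonempty (M n) := fun n => ⟨ULift.up (shortEnd (r n) (m n) 0 (hm n))⟩
  have hM : ∀ n, @Language.Theory.Model mulLang (M n) (mulStructure (M n)) T := by
    intro n
    rw [← hT (M n)]
    exact sarc_mem h3 h2 (hm2 n)
  have hP := ultra_model M F T hM
  letI sg : Semigroup ((F : Filter ℕ).Product M) := ultraSemigroup M F
  haveI : Nonempty ((F : Filter ℕ).Product M) :=
    ⟨cls M F fun n => ULift.up (shortEnd (r n) (m n) 0 (hm n))⟩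
  have hsat := (hT ((F : Filter ℕ).Product M)).2 hP (law θ) (by simp)
  let Φ : FreeSemigroup ℕ →ₙ* (F : Filter ℕ).Product M :=
    FreeSemigroup.lift fun a => cls M F fun n => ULift.up (bad (r n) (m n) (hm n) a)
  have hΦ : ∀ w, Φ w = cls M F fun n =>
      ULift.up (FreeSemigroup.lift (bad (r n) (m n) (hm n)) w) := by
    intro w
    induction w using FreeSemigroup.recOnMul with
    | ih1 x => simp [Φ]
    | ih2 x y h1 h2 =>
      rw [map_mul, h1, h2]
      change ultraOp M F _ _ = _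
      rw [ultraOp_cls]
      simp only [map_mul]
      rfl
  obtain ⟨v, hv', e⟩ := hsat Φ
  rw [hΦ, hΦ] at e
  have e1 := cls_eq M F e
  have hbig : ∀ N : ℕ, ∀ᶠ n in (F : Filter ℕ), N ≤ n := fun N =>
    Nat.hyperfilter_le_atTop (Filter.eventually_ge_atTop N)
  have key : ∃ N, ∀ n, N ≤ n → FreeSemigroup.lift (bad (r n) (m n) (hm n)) theWord ≠
      FreeSemigroup.lift (bad (r n) (m n) (hm n)) v := by
    rcases hv' with h | h | h | ⟨N, k, i, h1, h4, h⟩
    · exact ⟨0, fun n _ => bad_ne' (hm n) (hm3 n) (Or.inl h)⟩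
    · exact ⟨0, fun n _ => bad_ne' (hm n) (hm3 n) (Or.inr (Or.inl h))⟩
    · exact ⟨0, fun n _ => bad_ne' (hm n) (hm3 n) (Or.inr (Or.inr (Or.inl h)))⟩
    · have hN : (0 : ℝ) < N := by
        have := h1.2.1
        exact_mod_cast (by omega : 0 < N)
      have hgap : 0 < θ * N - k := by linarith
      obtain ⟨J, hJ⟩ := exists_nat_gt ((θ - 1 / 3) * N / (θ * N - k))
      refine ⟨J, fun n hn => bad_ne' (hm n) (hm3 n)
        (Or.inr (Or.inr (Or.inr ⟨N, k, i, h1, ?_, h⟩)))⟩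
      have hn0 : (0 : ℝ) < (n : ℝ) + 1 := by positivity
      have hnn : (0 : ℝ) < ((2 * r n + 1 : ℕ) : ℝ) := by positivity
      have h5 : (θ - 1 / 3) * N < (θ * N - k) * (n + 1) := by
        rw [div_lt_iff₀ hgap] at hJ
        have h6 : (J : ℝ) ≤ n := by exact_mod_cast hn
        nlinarith
      have h7 : (k : ℝ) ≤ (θ - (θ - 1 / 3) / (n + 1)) * N := by
        have h8 : (θ - 1 / 3) * N / (n + 1) < θ * N - k := by
          rw [div_lt_iff₀ hn0]
          exact h5
        have h9 : (θ - (θ - 1 / 3) / (n + 1)) * N = θ * N - (θ - 1 / 3) * N / (n + 1) := by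
          ring
        rw [h9]
        linarith
      have h10 : (k : ℝ) * (2 * r n + 1 : ℕ) ≤ m n * N := by
        have h11 : (k : ℝ) * (2 * r n + 1 : ℕ) ≤
            (θ - (θ - 1 / 3) / (n + 1)) * N * (2 * r n + 1 : ℕ) :=
          mul_le_mul_of_nonneg_right h7 hnn.le
        have h12 : (θ - (θ - 1 / 3) / (n + 1)) * (2 * r n + 1 : ℕ) * N ≤ m n * N :=
          mul_le_mul_of_nonneg_right (hm1 n).le hN.le
        linarith [mul_right_comm (θ - (θ - 1 / 3) / (n + 1)) ((2 * r n + 1 : ℕ) : ℝ) (N : ℝ)]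
      exact_mod_cast h10
  obtain ⟨N, hN⟩ := key
  obtain ⟨n, h1, h2'⟩ := (e1.and (hbig N)).exists
  exact hN n h2' (ULift.up_injective h1)

/-- The parameter attached to a real number: an order isomorphism onto the open interval from `1/3`
to `1/2`. -/
noncomputable def par (x : ℝ) : ℝ := 5 / 12 + (orderIsoIooNegOneOne ℝ x : ℝ) / 12

lemma par_mem (x : ℝ) : 1 / 3 < par x ∧ par x ≤ 1 / 2 := by
  have h := (orderIsoIooNegOneOne ℝ x).2
  unfold par
  constructor
  · linarith [h.1]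
  · linarith [h.2]

lemma par_lt {x y : ℝ} (h : x < y) : par x < par y := by
  have h1 : (orderIsoIooNegOneOne ℝ x : ℝ) < (orderIsoIooNegOneOne ℝ y : ℝ) :=
    (orderIsoIooNegOneOne ℝ).strictMono h
  unfold par
  linarith

/-- The classes are pairwise different. -/
lemma K_strict {x y : ℝ} (h : x < y) :
    ∃ r m : ℕ, K.{u} (par y) (USArc.{u} r m) ∧ ¬ K.{u} (par x) (USArc.{u} r m) := by
  obtain ⟨r, m, hr, h1, h2, hv⟩ := density (par_mem x).1.le (par_mem y).2 (par_lt h)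
  refine ⟨r, m, sarc_mem (par_mem y).1 (par_mem y).2 h2, ?_⟩
  exact sarc_notMem (by have := hv.2.1; omega) hv.2.2 h1.le

end Pool.Agent.Y825.IB
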